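import Pool.Agent.N263.GFun
import Pool.Agent.N263.Liou

/-!
Negative solutions of `Δu + p(|x|) q(e^u) = 4πN δ` in the plane need not be radially symmetric about
the origin under the hypotheses (H1)-(H8).
-/

set_option autoImplicit false

open MeasureTheory Set Filter Topology Laplacian InnerProductSpace
open scoped ContDiff

namespace Pool.Agent.Results.MP_ad2fa1_an.NonradialNegative

/-- The plane. -/
abbrev Plane := EuclideanSpace ℝ (Fin 2)

/-- `f(t) = e^{2t} p(e^t)`. -/
noncomputable def fOf (p : ℝ → ℝ) (t : ℝ) : ℝ := Real.exp (2 * t) * p (Real.exp t)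

/-- `g(u) = q(e^u)`. -/
noncomputable def gOf (q : ℝ → ℝ) (u : ℝ) : ℝ := q (Real.exp u)

/-- `M > 0` and `∫_0^∞ f(t) g(-M t) dt < ∞`. -/
def Fin0 (f g : ℝ → ℝ) (M : ℝ) : Prop :=
  0 < M ∧ IntegrableOn (fun t => f t * g (-M * t)) (Ioi 0)

/-- The hypotheses (H1)-(H8). Here `∫ s in Iic u, g s` is `G₀(u) = ∫_{-∞}^u g`, `F₁ = f'/f`,
`G₁ = G₀/g`. -/
structure Hyps (f g : ℝ → ℝ) : Prop where
  /-- (H1) -/
  H1 : ContDiff ℝ 1 f ∧ ContDiff ℝ 1 g ∧ IntegrableOn (fun t => |t * f t|) (Iic 0) ∧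
    ∃ C : ℝ, ∀ u, |g u| + |deriv g u| ≤ C
  /-- (H2) -/
  H2 : (∀ t, 0 < f t) ∧ Tendsto f atTop atTop ∧ g 0 = 0 ∧ ∀ u < 0, 0 < g u
  /-- (H3) -/
  H3 : ∀ t, 0 ≤ deriv f t
  /-- (H4) -/
  H4 : ∃ M : ℝ, Fin0 f g M ∧ ∀ u < -M, 0 < deriv g u
  /-- (H5), with `M₀ = inf {M > 0 | ∫_0^∞ f(t) g(-M t) dt < ∞}` -/
  H5 : ¬ IntegrableOn (fun t => f t * g (-(sInf {M | Fin0 f g M}) * t)) (Ioi 0) ∧
    ∀ c > 0, ∃ m > 0, ∀ t > 0, m ≤ f (t - c) / f t
  /-- (H6) and (H7) -/
  H67 : (∀ u, IntegrableOn g (Iic u)) ∧ ∃ f₁ g₁ : ℝ,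
    Tendsto (fun t => deriv f t / f t) atTop (𝓝 f₁) ∧
    Tendsto (fun u => (∫ s in Iic u, g s) / g u) atBot (𝓝 g₁) ∧
    (∀ t, f₁ ≤ deriv f t / f t) ∧ ∀ u < 0, g₁ ≤ (∫ s in Iic u, g s) / g u
  /-- (H8) -/
  H8 : ∃ δ > 0, ∀ u ∈ Icc (-δ) 0, deriv g u ≤ 0

/-- `u` is a solution of `Δu + p(|x|) q(e^u) = 4πN δ` in the sense of distributions on the plane,
locally integrable, and smooth outside the origin. -/
structure IsSolution (N : ℝ) (p q : ℝ → ℝ) (u : Plane → ℝ) : Prop where
  locInt : LocallyIntegrable u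
  smooth : ContDiffOn ℝ ∞ u {0}ᶜ
  source : LocallyIntegrable fun x => p ‖x‖ * q (Real.exp (u x))
  eqn : ∀ φ : Plane → ℝ, ContDiff ℝ ∞ φ → HasCompactSupport φ →
    ∫ x, (u x * Δ φ x + p ‖x‖ * q (Real.exp (u x)) * φ x) = 4 * Real.pi * N * φ 0

open Pool.Agent.N263.GFun Pool.Agent.N263.Liou

theorem fOf_one : fOf (fun _ => 1) = fun t => Real.exp (2 * t) := by
  funext t
  simp [fOf]

theorem gOf_log : gOf (fun s => gg (Real.log s)) = gg := by
  funext u
  simp [gOf]

theorem hf (t : ℝ) : HasDerivAt (fun t : ℝ => Real.exp (2 * t)) (2 * Real.exp (2 * t)) t := by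
  have h := ((hasDerivAt_id t).const_mul 2).exp
  refine h.congr_deriv ?_
  simp
  ring

theorem df : deriv (fun t : ℝ => Real.exp (2 * t)) = fun t => 2 * Real.exp (2 * t) :=
  funext fun t => (hf t).deriv

/-- For large arguments the product is an exponential. -/
theorem prod_eq {M t : ℝ} (h : 1 ≤ M * t) :
    Real.exp (2 * t) * gg (-M * t) = Real.exp ((2 - M) * t) := by
  rw [gg_low (by linarith), ← Real.exp_add]
  congr 1
  ring

theorem fin0 {M : ℝ} : Fin0 (fun t => Real.exp (2 * t)) gg M ↔ 2 < M := by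
  have hcont : Continuous fun t => Real.exp (2 * t) * gg (-M * t) :=
    (by fun_prop : Continuous fun t : ℝ => Real.exp (2 * t)).mul (gg_cont.comp (by fun_prop))
  constructor
  · rintro ⟨hM, hi⟩
    by_contra hcon
    have hcon : M ≤ 2 := not_lt.1 hcon
    have h1 : IntegrableOn (fun t => Real.exp (2 * t) * gg (-M * t)) (Ioi (1 / M)) :=
      hi.mono_set (Ioi_subset_Ioi (by positivity))
    have h2 : IntegrableOn (fun _ : ℝ => (1 : ℝ)) (Ioi (1 / M)) := by
      refine Integrable.mono' h1 (by fun_prop) ?_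
      filter_upwards [ae_restrict_mem measurableSet_Ioi] with t ht
      have ht' : 1 / M < t := ht
      have h3 : 1 ≤ M * t := by
        rw [div_lt_iff₀ hM] at ht'
        linarith
      have h0 : 0 < t := lt_trans (by positivity) ht'
      rw [prod_eq h3]
      simp only [norm_one]
      exact Real.one_le_exp (mul_nonneg (by linarith) h0.le)
    rw [integrableOn_const_iff] at h2
    simp at h2
  · intro hM
    have hM0 : 0 < M := by linarith
    refine ⟨hM0, ?_⟩
    have h1 : IntegrableOn (fun t => Real.exp (2 * t) * gg (-M * t)) (Icc 0 (1 / M)) :=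
      hcont.continuousOn.integrableOn_Icc
    have h2 : IntegrableOn (fun t => Real.exp (2 * t) * gg (-M * t)) (Ioi (1 / M)) := by
      have h3 : IntegrableOn (fun t => Real.exp (-(M - 2) * t)) (Ioi (1 / M)) :=
        integrableOn_exp_mul_Ioi (by linarith) _
      refine h3.congr_fun (fun t ht => ?_) measurableSet_Ioi
      have ht' : 1 / M < t := ht
      rw [div_lt_iff₀ hM0] at ht'
      simp only
      rw [prod_eq (by linarith)]
      congr 1
      ring
    refine (h1.union h2).mono_set fun t ht => ?_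
    rcases le_or_gt t (1 / M) with h | h
    · exact Or.inl ⟨le_of_lt ht, h⟩
    · exact Or.inr h

theorem hyps : Hyps (fun t => Real.exp (2 * t)) gg where
  H1 := by
    refine ⟨by fun_prop, gg_c1, ?_, 9, fun u => ?_⟩
    · refine Integrable.mono' (integrableOn_exp_Iic 0)
        (by fun_prop : Continuous fun t : ℝ => |t * Real.exp (2 * t)|).aestronglyMeasurable ?_
      filter_upwards [ae_restrict_mem measurableSet_Iic] with t ht
      have ht' : t ≤ 0 := ht
      have h1 : -t ≤ Real.exp (-t) := by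
        have := Real.add_one_le_exp (-t)
        linarith
      have h2 := Real.exp_pos (2 * t)
      rw [Real.norm_eq_abs, abs_abs, abs_mul, abs_of_nonpos ht', abs_of_pos h2]
      calc -t * Real.exp (2 * t) ≤ Real.exp (-t) * Real.exp (2 * t) := by gcongr
        _ = Real.exp t := by
          rw [← Real.exp_add]
          congr 1
          ring
    · rw [gg_deriv]
      exact gg_bdd u
  H2 := by
    refine ⟨fun t => Real.exp_pos _, ?_, gg_zero, fun u hu => gg_pos hu⟩
    exact Real.tendsto_exp_atTop.comp (tendsto_id.const_mul_atTop (by norm_num : (0 : ℝ) < 2))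
  H3 := fun t => by
    rw [df]
    positivity
  H4 := by
    refine ⟨3, fin0.2 (by norm_num), fun u hu => ?_⟩
    rw [gg_deriv, gg'_low (by linarith)]
    exact Real.exp_pos u
  H5 := by
    have e : {M | Fin0 (fun t => Real.exp (2 * t)) gg M} = Ioi 2 := by
      ext M
      exact fin0
    rw [e, csInf_Ioi]
    refine ⟨fun h => ?_, fun c hc => ⟨Real.exp (-2 * c), Real.exp_pos _, fun t _ => ?_⟩⟩
    · have := fin0.1 (show Fin0 (fun t => Real.exp (2 * t)) gg 2 from ⟨by norm_num, h⟩)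
      exact lt_irrefl _ this
    · rw [← Real.exp_sub]
      refine le_of_eq ?_
      congr 1
      ring
  H67 := by
    refine ⟨gg_int, 2, 1, ?_, ?_, ?_, ?_⟩
    · rw [df]
      refine tendsto_const_nhds.congr fun t => ?_
      have := (Real.exp_pos (2 * t)).ne'
      field_simp
    · refine tendsto_const_nhds.congr' ?_
      filter_upwards [eventually_le_atBot (-1)] with u hu
      rw [G_low hu, div_self (gg_pos (by linarith)).ne']
    · intro t
      rw [df]
      refine le_of_eq ?_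
      have := (Real.exp_pos (2 * t)).ne'
      field_simp
    · intro u hu
      rw [le_div_iff₀ (gg_pos hu), one_mul]
      exact G_ge hu.le
  H8 := by
    refine ⟨1 / 2, by norm_num, fun u hu => ?_⟩
    rw [gg_deriv, gg'_mid (by linarith [hu.1]) hu.2]
    have h1 := hu.1
    have h2 := hu.2
    have h3 := Real.exp_pos u
    have h4 : -(u ^ 2 + 4 * u + 2) ≤ 0 := by nlinarith
    exact mul_nonpos_of_nonpos_of_nonneg h4 h3.le

/-- There are `p, q` such that `f(t) = e^{2t} p(e^t)` and `g(u) = q(e^u)` satisfy (H1)-(H8), and a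
solution `u` of `Δu + p(|x|) q(e^u) = 4πN δ` in the plane with `N = 1`, negative outside the origin,
which is not radially symmetric about the origin. One can take `p = 1` and `q(s) = s` for small
`s > 0`. -/
theorem result : ∃ (p q : ℝ → ℝ) (u : Plane → ℝ), Hyps (fOf p) (gOf q) ∧
    (∀ r, p r = 1) ∧ (∃ s₀ > 0, ∀ s, 0 < s → s ≤ s₀ → q s = s) ∧
    IsSolution 1 p q u ∧ (∀ x, x ≠ 0 → u x < 0) ∧
    ∃ x y : Plane, x ≠ 0 ∧ ‖x‖ = ‖y‖ ∧ u x ≠ u y := by
  refine ⟨fun _ => 1, fun s => gg (Real.log s), sol, ?_, fun _ => rfl,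
    ⟨Real.exp (-1), Real.exp_pos _, ?_⟩, ?_, fun x hx => (sol_lt hx).trans (by norm_num),
    nonradial⟩
  · rw [fOf_one, gOf_log]
    exact hyps
  · intro s hs hs1
    have h1 : Real.log s ≤ -1 := by
      rw [← Real.log_exp (-1)]
      exact Real.log_le_log hs hs1
    simp only
    rw [gg_low h1, Real.exp_log hs]
  · have hz : ∀ᵐ x : Plane, x ≠ 0 := by
      rw [ae_iff]
      simp
    have hae : ∀ᵐ x : Plane, (1 : ℝ) * gg (Real.log (Real.exp (sol x)))
        = 320000 * ‖x‖ ^ 2 / D x ^ 2 := by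
      filter_upwards [hz] with x hx
      rw [one_mul, Real.log_exp, gg_low (sol_lt hx).le, exp_sol hx]
    refine ⟨sol_locInt, sol_smooth, ?_, ?_⟩
    · have h1 : LocallyIntegrable fun x : Plane => 320000 * ‖x‖ ^ 2 / D x ^ 2 :=
        s_cont.locallyIntegrable
      refine h1.congr ?_
      filter_upwards [hae] with x hx
      exact hx.symm
    · intro φ hφ hc
      obtain ⟨i1, e1⟩ := sol_eqn hφ hc
      have i2 : Integrable fun x : Plane => 320000 * ‖x‖ ^ 2 / D x ^ 2 * φ x :=
        (s_cont.mul hφ.continuous).integrable_of_hasCompactSupport hc.mul_left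
      have e2 : ∫ x, (sol x * Δ φ x + 1 * gg (Real.log (Real.exp (sol x))) * φ x)
          = ∫ x, (sol x * Δ φ x + 320000 * ‖x‖ ^ 2 / D x ^ 2 * φ x) := by
        refine integral_congr_ae ?_
        filter_upwards [hae] with x hx
        rw [hx]
      rw [e2, integral_add i1 i2, e1]
      ring

end Pool.Agent.Results.MP_ad2fa1_an.NonradialNegative
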